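import Pool.Agent.MVO.StmtsG

/-!
# Row ALN of the squad MVO (change of the type of one letter in a gathered word)
-/

set_option autoImplicit false

namespace Pool.Agent.MVO.H60

open Pool.Agent.Helper14_MV Pool.Agent.Helper2_MV

theorem rep_flatMap (m c : ℕ) : (List.replicate m 0).flatMap (fun _ => [c]) = List.replicate m c := by
  induction m with
  | zero => rfl
  | succ m ih => rw [List.replicate_succ, List.flatMap_cons, ih, List.replicate_succ]; rfl

theorem gb_append (n : ℕ → ℕ) (A B : List ℕ) : gb n (A ++ B) = gb n A ++ gb n B := by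
  unfold gb
  rw [List.flatMap_append]

theorem gb_update {n : ℕ → ℕ} {c m : ℕ} {A : List ℕ} (h : c ∉ A) :
    gb (Function.update n c m) A = gb n A := by
  unfold gb
  refine flatMap_congr' fun d hd => ?_
  have : d ≠ c := fun he => h (he ▸ hd)
  rw [Function.update_of_ne this]

/-- **Row ALN** -/
theorem aln : AlnStmt := by
  intro ω k X n D hX hD c hc a' hL
  have hsplit : ∀ j, ∃ Z1 Z2 : List ℕ, D j = Z1 ++ c :: Z2 ∧ c ∉ Z1 ∧ c ∉ Z2 := by
    intro j
    have hnd : (D j).Nodup := (hD j).nodup_iff.mpr hX
    have hcj : c ∈ D j := (hD j).mem_iff.mpr hc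
    obtain ⟨Z1, Z2, h⟩ := List.append_of_mem hcj
    refine ⟨Z1, Z2, h, ?_, ?_⟩
    · intro h1
      rw [h] at hnd
      exact (List.disjoint_of_nodup_append hnd) h1 (List.mem_cons_self ..)
    · intro h2
      rw [h] at hnd
      exact (List.nodup_cons.mp (List.nodup_append.mp hnd).2.1).1 h2
  choose Z1 Z2 hZ h1 h2 using hsplit
  have e1 : gw k n D = asm k (fun j => gb (n j) (Z1 j) ++
      (List.replicate (n j c) 0).flatMap (fun _ => [c]) ++ gb (n j) (Z2 j)) := by
    unfold gw
    refine asm_congr fun j _ => ?_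
    rw [rep_flatMap, hZ j, gb_append, List.append_assoc]
    rfl
  have e2 : gw k (fun j => Function.update (n j) c (a' j)) D = asm k (fun j => gb (n j) (Z1 j) ++
      (List.replicate (a' j) 0).flatMap (fun _ => [c]) ++ gb (n j) (Z2 j)) := by
    unfold gw
    refine asm_congr fun j _ => ?_
    have e3 : gb (Function.update (n j) c (a' j)) (c :: Z2 j) =
        List.replicate (a' j) c ++ gb (n j) (Z2 j) := by
      rw [← gb_update (n := n j) (c := c) (m := a' j) (h2 j)]
      unfold gb
      rw [List.flatMap_cons, Function.update_self]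
    rw [rep_flatMap, hZ j, gb_append, gb_update (h1 j), e3, List.append_assoc]
  rw [e1, e2]
  have hns : NS k 0 := fun h => by omega
  exact rr_ins ω (fun j => gb (n j) (Z1 j)) (fun j => gb (n j) (Z2 j)) (fun _ => [c])
    (B := fun j => List.replicate (n j c) 0) (B' := fun j => List.replicate (a' j) 0)
    (fun j _ d hd => by rw [List.eq_of_mem_replicate hd]; exact hns)
    (fun j _ d hd => by rw [List.eq_of_mem_replicate hd]; exact hns) hL

end Pool.Agent.MVO.H60
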